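import Pool.Agent.H98.Cup.Cubes

/-!
Cup-i products on cube complexes with invariant coordinates: the main theorems.

`cup_d`: d (z ∪_i z') = dz ∪_i z' + z ∪_i dz' + z ∪_(i-1) z' + T (z' ∪_(i-1) z)  (char 2)
`cup_neg`, `cup_big`, `cup_top`: range of i, z ∪_|s| z' = β z z'
`cup_inv`: z ∪_i z' is invariant
`cup_map`: naturality, in particular equivariance.
-/

namespace Pool.Agent.H98.Cup

open Function

namespace Cubes

variable {V X : Type*} [LinearOrder V] (Q : Cubes V X)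
variable {M A : Type*} [AddCommGroup M] [AddCommGroup A]

/-- the cup-i product of two cochains -/
def cup (i : ℤ) (β : M →+ M →+ A) (z z' : X → Finset V → M) (x : X) (s : Finset V) : A :=
  D (s.sort (· ≤ ·)) i β (Q.ζ z x (s.sort (· ≤ ·))) (Q.ζ z' x (s.sort (· ≤ ·)))
    (fun _ => none) (fun _ => none)

theorem lclique_sort (s : Finset V) (hs : Q.Clique s) : Q.LClique (s.sort (· ≤ ·)) := by
  intro u hu v hv
  exact hs u ((Finset.mem_sort _).1 hu) v ((Finset.mem_sort _).1 hv)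

theorem sort_erase (s : Finset V) (v : V) :
    (s.erase v).sort (· ≤ ·) = (s.sort (· ≤ ·)).erase v := by
  have hs : ((s.sort (· ≤ ·)).erase v).Pairwise (· ≤ ·) :=
    List.Pairwise.sublist List.erase_sublist (Finset.pairwise_sort s (· ≤ ·))
  have h1 : ((s.erase v).sort (· ≤ ·)).Pairwise (· ≤ ·) :=
    Finset.pairwise_sort _ (· ≤ ·)
  have hn := Finset.sort_nodup s (· ≤ ·)
  have hp : ((s.erase v).sort (· ≤ ·)).Perm ((s.sort (· ≤ ·)).erase v) := by
    rw [List.perm_ext_iff_of_nodup (Finset.sort_nodup _ _) (hn.erase v)]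
    intro a
    rw [Finset.mem_sort, Finset.mem_erase, hn.mem_erase_iff, Finset.mem_sort]
  exact hp.eq_of_pairwise (fun a b _ _ hab hba => le_antisymm hab hba) h1 hs

theorem cup_d (h2 : ∀ a : A, a + a = 0) (i : ℤ) (β : M →+ M →+ A)
    (z z' : X → Finset V → M) (s : Finset V) (hs : Q.Clique s) (x : X) :
    Q.d (Q.cup i β z z') x s = Q.cup i β (Q.d z) z' x s + Q.cup i β z (Q.d z') x s
      + Q.cup (i-1) β z z' x s + Q.cup (i-1) β.flip z' z x s := by
  have hn := Finset.sort_nodup s (· ≤ ·)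
  have hc := Q.lclique_sort s hs
  have hcl := claim h2 _ hn i β (Q.ζ z x (s.sort (· ≤ ·))) (Q.ζ z' x (s.sort (· ≤ ·)))
    (fun _ => none) (fun _ => none)
  rw [Q.dl_ζ z _ hn hc, Q.dl_ζ z' _ hn hc] at hcl
  unfold cup
  rw [← hcl]
  unfold d B
  rw [← List.sum_toFinset _ hn, Finset.sort_toFinset]
  apply Finset.sum_congr rfl
  intro v hv
  have hv' : v ∈ s.sort (· ≤ ·) := (Finset.mem_sort _).2 hv
  have hve : v ∉ (s.sort (· ≤ ·)).erase v := fun h => (hn.mem_erase_iff.1 h).1 rfl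
  rw [← Q.π_sum (fun y => D ((s.erase v).sort (· ≤ ·)) i β
    (Q.ζ z y ((s.erase v).sort (· ≤ ·))) (Q.ζ z' y ((s.erase v).sort (· ≤ ·)))
    (fun _ => none) (fun _ => none)) v x]
  rw [sort_erase]
  rw [D_congr_update v (some false) _ hve i β _ _ (Q.ζ z (Q.π v false x) _)
      (Q.ζ z' (Q.π v false x) _) _ _ (fun c => Q.ζ_update z _ hn hc v hv' x c false)
      (fun c => Q.ζ_update z' _ hn hc v hv' x c false),
    D_congr_update v (some true) _ hve i β _ _ (Q.ζ z (Q.π v true x) _)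
      (Q.ζ z' (Q.π v true x) _) _ _ (fun c => Q.ζ_update z _ hn hc v hv' x c true)
      (fun c => Q.ζ_update z' _ hn hc v hv' x c true)]

theorem cup_neg (i : ℤ) (hi : i < 0) (β : M →+ M →+ A) (z z' : X → Finset V → M) (x : X)
    (s : Finset V) : Q.cup i β z z' x s = 0 := D_neg _ _ _ _ _ _ _ hi

theorem cup_big (i : ℤ) (β : M →+ M →+ A) (z z' : X → Finset V → M) (x : X)
    (s : Finset V) (hi : (s.card : ℤ) < i) : Q.cup i β z z' x s = 0 :=
  D_big _ _ _ _ _ _ _ (by rw [Finset.length_sort]; exact hi)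

theorem cup_top (β : M →+ M →+ A) (z z' : X → Finset V → M) (x : X)
    (s : Finset V) : Q.cup (s.card : ℤ) β z z' x s = β (z x s) (z' x s) := by
  have h := D_top (s.sort (· ≤ ·)) β (Q.ζ z x (s.sort (· ≤ ·)))
    (Q.ζ z' x (s.sort (· ≤ ·))) (fun _ => none) (fun _ => none)
  rw [Finset.length_sort] at h
  unfold cup
  rw [h]
  have ho : open_ (s.sort (· ≤ ·)) (fun _ : V => (none : Option Bool)) = fun _ => none := by
    funext v; unfold open_; simp
  have hf : ((s.sort (· ≤ ·)).toFinset.filter fun v =>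
      (fun _ : V => (none : Option Bool)) v = none) = s := by
    rw [Finset.sort_toFinset]
    simp
  unfold ζ
  rw [ho, pt_none, hf]

theorem ζ_τ (z : X → Finset V → M) (hz : Q.Inv z) (s : Finset V) (hs : Q.Clique s)
    (v : V) (hv : v ∈ s) (x : X) :
    Q.ζ z (Q.τ v x) (s.sort (· ≤ ·)) = Q.ζ z x (s.sort (· ≤ ·)) := by
  funext c
  have hn := Finset.sort_nodup s (· ≤ ·)
  have hc := Q.lclique_sort s hs
  have hv' : v ∈ s.sort (· ≤ ·) := (Finset.mem_sort _).2 hv
  have hve : v ∉ (s.sort (· ≤ ·)).erase v := fun h => (hn.mem_erase_iff.1 h).1 rfl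
  have hadj : ∀ u ∈ (s.sort (· ≤ ·)).erase v, Q.adj u v := fun u hu => by
    have h := hn.mem_erase_iff.1 hu
    exact hc u h.2 v hv' h.1
  unfold ζ
  rw [Q.pt_erase _ hn hc v hv', Q.pt_erase _ hn hc v hv' x, Q.pt_τ _ v hve hadj]
  cases hcv : c v with
  | none =>
    show z (Q.τ v (Q.pt _ x c)) _ = z (Q.pt _ x c) _
    apply hz
    · intro a ha b hb
      have ha' := (Finset.mem_filter.1 ha).1
      have hb' := (Finset.mem_filter.1 hb).1
      rw [Finset.sort_toFinset] at ha' hb'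
      exact hs a ha' b hb'
    · rw [Finset.mem_filter, Finset.sort_toFinset]
      exact ⟨hv, hcv⟩
  | some e =>
    show z (Q.π v e (Q.τ v (Q.pt _ x c))) _ = z (Q.π v e (Q.pt _ x c)) _
    rw [π_τ]

theorem cup_inv (i : ℤ) (β : M →+ M →+ A) (z z' : X → Finset V → M) (hz : Q.Inv z)
    (hz' : Q.Inv z') : Q.Inv (Q.cup i β z z') := by
  intro s hs v hv x
  unfold cup
  rw [Q.ζ_τ z hz s hs v hv, Q.ζ_τ z' hz' s hs v hv]

theorem cup_map {M' A' : Type*} [AddCommGroup M'] [AddCommGroup A'] (φ : M →+ M')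
    (ψ : A →+ A') (g : X → X) (hτ : ∀ v x, g (Q.τ v x) = Q.τ v (g x))
    (hcrd : ∀ x v, Q.crd (g x) v = Q.crd x v)
    (i : ℤ) (β : M →+ M →+ A) (β' : M' →+ M' →+ A')
    (hβ : ∀ m m', β' (φ m) (φ m') = ψ (β m m'))
    (z z' : X → Finset V → M) (y y' : X → Finset V → M')
    (hy : ∀ x s, y (g x) s = φ (z x s)) (hy' : ∀ x s, y' (g x) s = φ (z' x s))
    (x : X) (s : Finset V) :
    Q.cup i β' y y' (g x) s = ψ (Q.cup i β z z' x s) := by
  have hπ : ∀ v e x, Q.π v e (g x) = g (Q.π v e x) := by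
    intro v e x
    unfold π
    rw [hcrd]
    split_ifs
    · rfl
    · exact (hτ v x).symm
  have hpt : ∀ (l : List V) (x : X) (c : Cel V), Q.pt l (g x) c = g (Q.pt l x c) := by
    intro l x c
    induction l with
    | nil => rfl
    | cons v l ih =>
      rw [pt_cons, pt_cons, ih]
      cases c v
      · rfl
      · exact hπ _ _ _
  unfold cup
  rw [← D_map φ ψ _ i β β' hβ]
  have h1 : ∀ (z : X → Finset V → M) (y : X → Finset V → M')
      (_ : ∀ x s, y (g x) s = φ (z x s)) (l : List V),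
      Q.ζ y (g x) l = fun c => φ (Q.ζ z x l c) := by
    intro z y h l
    funext c
    unfold ζ
    rw [hpt, h]
  rw [h1 z y hy, h1 z' y' hy']

/-- the Steenrod squares of a cocycle -/
theorem cup_cocycle (h2 : ∀ a : A, a + a = 0) (i : ℤ) (β : M →+ M →+ A)
    (z : X → Finset V → M) (hz : ∀ s, Q.Clique s → ∀ x, Q.d z x s = 0)
    (s : Finset V) (hs : Q.Clique s) (x : X) :
    Q.d (Q.cup i β z z) x s = Q.cup (i-1) β z z x s + Q.cup (i-1) β.flip z z x s := by
  have hn := Finset.sort_nodup s (· ≤ ·)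
  have hc := Q.lclique_sort s hs
  have hcl := claim h2 _ hn i β (Q.ζ z x (s.sort (· ≤ ·))) (Q.ζ z x (s.sort (· ≤ ·)))
    (fun _ => none) (fun _ => none)
  have h0 : dl (s.sort (· ≤ ·)) (Q.ζ z x (s.sort (· ≤ ·))) = 0 := by
    rw [Q.dl_ζ z _ hn hc]
    funext c
    unfold ζ
    apply hz
    intro a ha b hb
    have ha' := (Finset.mem_filter.1 ha).1
    have hb' := (Finset.mem_filter.1 hb).1
    rw [Finset.sort_toFinset] at ha' hb'
    exact hs a ha' b hb'
  have h := Q.cup_d h2 i β z z s hs x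
  rw [h]
  have e1 : Q.cup i β (Q.d z) z x s = 0 := by
    unfold cup
    rw [← Q.dl_ζ z _ hn hc, h0, (D_zero _ _ _ _ _ _).1]
  have e2 : Q.cup i β z (Q.d z) x s = 0 := by
    unfold cup
    rw [← Q.dl_ζ z _ hn hc, h0, (D_zero _ _ _ _ _ _).2]
  rw [e1, e2]
  abel

end Cubes

end Pool.Agent.H98.Cup
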