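import Mathlib

/-!
Cup-i products on the cochains of a cube, in the language of cells.

A cell of the cube with directions in `V` is a function `c : V → Option Bool`:
`none` is the whole edge, `some false`, `some true` are the two end points.
`D l i β z z' c c'` is the value of the i-th Steenrod diagonal of the directions in the list
`l`, paired with the cochains `z`, `z'` through the biadditive map `β`; the recursion is
`D_i (v :: l) = (e ⊗ 1 + 0 ⊗ e) D_i l + (e ⊗ e) T D_(i-1) l`.
-/

namespace Pool.Agent.H98.Cup

open Function

variable {V : Type*} [DecidableEq V]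
variable {M A : Type*} [AddCommGroup M] [AddCommGroup A]

/-- cells of a cube: `none` = edge, `some e` = end point -/
abbrev Cel (V : Type*) := V → Option Bool

/-- the i-th Steenrod diagonal in the directions of a list -/
def D : List V → ℤ → (M →+ M →+ A) → (Cel V → M) → (Cel V → M) → Cel V → Cel V → A
  | [], i, β, z, z', c, c' => if i = 0 then β (z c) (z' c') else 0
  | v :: l, i, β, z, z', c, c' =>
      D l i β z z' (update c v none) (update c' v (some true))
      + D l i β z z' (update c v (some false)) (update c' v none)
      + D l (i-1) β.flip z' z (update c' v none) (update c v none)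

theorem D_nil (i : ℤ) (β : M →+ M →+ A) (z z' : Cel V → M) (c c' : Cel V) :
    D [] i β z z' c c' = if i = 0 then β (z c) (z' c') else 0 := rfl

theorem D_cons (v : V) (l : List V) (i : ℤ) (β : M →+ M →+ A) (z z' : Cel V → M)
    (c c' : Cel V) :
    D (v :: l) i β z z' c c' =
      D l i β z z' (update c v none) (update c' v (some true))
      + D l i β z z' (update c v (some false)) (update c' v none)
      + D l (i-1) β.flip z' z (update c' v none) (update c v none) := rfl

theorem flip_flip (β : M →+ M →+ A) : β.flip.flip = β := rfl

theorem D_add (l : List V) : ∀ (i : ℤ) (β : M →+ M →+ A) (z₁ z₂ z' : Cel V → M)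
    (c c' : Cel V),
    D l i β (z₁ + z₂) z' c c' = D l i β z₁ z' c c' + D l i β z₂ z' c c' ∧
    D l i β z' (z₁ + z₂) c c' = D l i β z' z₁ c c' + D l i β z' z₂ c c' := by
  induction l with
  | nil =>
    intro i β z₁ z₂ z' c c'
    simp only [D_nil]
    constructor
    · split_ifs <;> simp
    · split_ifs <;> simp
  | cons v l ih =>
    intro i β z₁ z₂ z' c c'
    simp only [D_cons]
    constructor
    · rw [(ih i β z₁ z₂ z' _ _).1, (ih i β z₁ z₂ z' _ _).1, (ih (i-1) β.flip z₁ z₂ z' _ _).2]
      abel
    · rw [(ih i β z₁ z₂ z' _ _).2, (ih i β z₁ z₂ z' _ _).2, (ih (i-1) β.flip z₁ z₂ z' _ _).1]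
      abel

theorem D_zero (l : List V) : ∀ (i : ℤ) (β : M →+ M →+ A) (z' : Cel V → M)
    (c c' : Cel V),
    D l i β 0 z' c c' = 0 ∧ D l i β z' 0 c c' = 0 := by
  induction l with
  | nil =>
    intro i β z' c c'
    simp only [D_nil]
    constructor
    · split_ifs <;> simp
    · split_ifs <;> simp
  | cons v l ih =>
    intro i β z' c c'
    simp only [D_cons]
    constructor
    · rw [(ih i β z' _ _).1, (ih i β z' _ _).1, (ih (i-1) β.flip z' _ _).2]
      simp
    · rw [(ih i β z' _ _).2, (ih i β z' _ _).2, (ih (i-1) β.flip z' _ _).1]
      simp

/-- the coboundary in one direction -/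
def dv (v : V) (z : Cel V → M) (c : Cel V) : M :=
  if c v = none then z (update c v (some false)) + z (update c v (some true)) else 0

/-- the coboundary in the directions of a list -/
def dl (l : List V) (z : Cel V → M) : Cel V → M :=
  (l.map fun v => dv v z).sum

theorem dl_nil (z : Cel V → M) : dl [] z = 0 := rfl

theorem dl_cons (v : V) (l : List V) (z : Cel V → M) :
    dl (v :: l) z = dv v z + dl l z := by
  simp [dl]

theorem D_dv (v : V) (l : List V) (hv : v ∉ l) :
    ∀ (i : ℤ) (β : M →+ M →+ A) (z z' : Cel V → M) (c c' : Cel V),
    (c v = none → D l i β (dv v z) z' c c' =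
        D l i β z z' (update c v (some false)) c' + D l i β z z' (update c v (some true)) c') ∧
    (c' v = none → D l i β z' (dv v z) c c' =
        D l i β z' z c (update c' v (some false)) + D l i β z' z c (update c' v (some true))) ∧
    (c v ≠ none → D l i β (dv v z) z' c c' = 0) ∧
    (c' v ≠ none → D l i β z' (dv v z) c c' = 0) := by
  induction l with
  | nil =>
    intro i β z z' c c'
    simp only [D_nil]
    refine ⟨fun h => ?_, fun h => ?_, fun h => ?_, fun h => ?_⟩
    · simp only [dv, h, if_true]
      split_ifs <;> simp
    · simp only [dv, h, if_true]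
      split_ifs <;> simp
    · simp only [dv, h, if_false]
      split_ifs <;> simp
    · simp only [dv, h, if_false]
      split_ifs <;> simp
  | cons u l ih =>
    intro i β z z' c c'
    have huv : v ≠ u := fun h => hv (by simp [h])
    have hvl : v ∉ l := fun h => hv (by simp [h])
    have ih := ih hvl
    simp only [D_cons]
    have hu : ∀ (c : Cel V) (a : Option Bool), update c u a v = c v := fun c a =>
      update_of_ne huv _ _
    have hcomm : ∀ (c : Cel V) (a b : Option Bool),
        update (update c u a) v b = update (update c v b) u a := fun c a b =>
      update_comm huv.symm _ _ _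
    refine ⟨fun h => ?_, fun h => ?_, fun h => ?_, fun h => ?_⟩
    · rw [(ih i β z z' _ _).1 (by rw [hu]; exact h), (ih i β z z' _ _).1 (by rw [hu]; exact h),
        (ih (i-1) β.flip z z' _ _).2.1 (by rw [hu]; exact h)]
      simp only [hcomm]
      abel
    · rw [(ih i β z z' _ _).2.1 (by rw [hu]; exact h),
        (ih i β z z' _ _).2.1 (by rw [hu]; exact h),
        (ih (i-1) β.flip z z' _ _).1 (by rw [hu]; exact h)]
      simp only [hcomm]
      abel
    · rw [(ih i β z z' _ _).2.2.1 (by rw [hu]; exact h),
        (ih i β z z' _ _).2.2.1 (by rw [hu]; exact h),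
        (ih (i-1) β.flip z z' _ _).2.2.2 (by rw [hu]; exact h)]
      simp
    · rw [(ih i β z z' _ _).2.2.2 (by rw [hu]; exact h),
        (ih i β z z' _ _).2.2.2 (by rw [hu]; exact h),
        (ih (i-1) β.flip z z' _ _).2.2.1 (by rw [hu]; exact h)]
      simp

/-- the sum over the facets of the cube in the directions of a list -/
def B (l : List V) (i : ℤ) (β : M →+ M →+ A) (z z' : Cel V → M) (c c' : Cel V) : A :=
  (l.map fun v => D (l.erase v) i β z z' (update c v (some false)) (update c' v (some false))
    + D (l.erase v) i β z z' (update c v (some true)) (update c' v (some true))).sum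

theorem B_nil (i : ℤ) (β : M →+ M →+ A) (z z' : Cel V → M) (c c' : Cel V) :
    B [] i β z z' c c' = 0 := rfl

theorem B_cons (v : V) (l : List V) (hv : v ∉ l) (i : ℤ) (β : M →+ M →+ A)
    (z z' : Cel V → M) (c c' : Cel V) :
    B (v :: l) i β z z' c c' =
      D l i β z z' (update c v (some false)) (update c' v (some false))
      + D l i β z z' (update c v (some true)) (update c' v (some true))
      + B l i β z z' (update c v none) (update c' v (some true))
      + B l i β z z' (update c v (some false)) (update c' v none)
      + B l (i-1) β.flip z' z (update c' v none) (update c v none) := by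
  unfold B
  rw [List.map_cons, List.sum_cons, List.erase_cons_head]
  have h1 : (l.map fun u => D ((v :: l).erase u) i β z z' (update c u (some false))
      (update c' u (some false)) + D ((v :: l).erase u) i β z z' (update c u (some true))
      (update c' u (some true))) =
      (l.map fun u =>
        (D (l.erase u) i β z z' (update (update c v none) u (some false))
            (update (update c' v (some true)) u (some false))
          + D (l.erase u) i β z z' (update (update c v none) u (some true))
            (update (update c' v (some true)) u (some true)))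
        + (D (l.erase u) i β z z' (update (update c v (some false)) u (some false))
            (update (update c' v none) u (some false))
          + D (l.erase u) i β z z' (update (update c v (some false)) u (some true))
            (update (update c' v none) u (some true)))
        + (D (l.erase u) (i-1) β.flip z' z (update (update c' v none) u (some false))
            (update (update c v none) u (some false))
          + D (l.erase u) (i-1) β.flip z' z (update (update c' v none) u (some true))
            (update (update c v none) u (some true)))) := by
    apply List.map_congr_left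
    intro u hu
    have huv : v ≠ u := fun h => hv (by rw [h]; exact hu)
    have he : (v :: l).erase u = v :: l.erase u := by
      rw [List.erase_cons_tail]
      simpa using huv
    have hcomm : ∀ (c : Cel V) (a b : Option Bool),
        update (update c u a) v b = update (update c v b) u a := fun c a b =>
      update_comm huv.symm _ _ _
    rw [he, D_cons, D_cons]
    simp only [hcomm]
    abel
  rw [h1, List.sum_map_add, List.sum_map_add]
  abel

theorem claim (h2 : ∀ a : A, a + a = 0) (l : List V) (hl : l.Nodup) :
    ∀ (i : ℤ) (β : M →+ M →+ A) (z z' : Cel V → M) (c c' : Cel V),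
    B l i β z z' c c' = D l i β (dl l z) z' c c' + D l i β z (dl l z') c c'
      + D l (i-1) β z z' c c' + D l (i-1) β.flip z' z c' c := by
  induction l with
  | nil =>
    intro i β z z' c c'
    rw [B_nil, dl_nil, dl_nil, (D_zero _ _ _ _ _ _).1, (D_zero _ _ _ _ _ _).2]
    simp only [D_nil, AddMonoidHom.flip_apply]
    rw [zero_add, zero_add]
    exact (h2 _).symm
  | cons v l ih =>
    intro i β z z' c c'
    have hvl : v ∉ l := (List.nodup_cons.1 hl).1
    have ih := ih (List.nodup_cons.1 hl).2
    rw [B_cons v l hvl, ih, ih, ih, dl_cons, dl_cons, (D_add _ _ _ _ _ _ _ _).1,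
      (D_add _ _ _ _ _ _ _ _).2]
    simp only [D_cons, flip_flip]
    have e1 : ∀ (c : Cel V), update c v none v = none := fun c => update_self _ _ _
    have e2 : ∀ (c : Cel V) (b : Bool), update c v (some b) v ≠ none := fun c b => by
      rw [update_self]; simp
    have hid : ∀ (c : Cel V) (a b : Option Bool), update (update c v a) v b = update c v b :=
      fun c a b => update_idem _ _ _
    have k1 := fun c c' => (D_dv v l hvl i β z z' (update c v none) c').1 (e1 c)
    have k2 := fun c c' b => (D_dv v l hvl i β z z' (update c v (some b)) c').2.2.1 (e2 c b)
    have k3 := fun c c' => (D_dv v l hvl (i-1) β.flip z z' c (update c' v none)).2.1 (e1 c')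
    have k4 := fun c c' => (D_dv v l hvl i β z' z c (update c' v none)).2.1 (e1 c')
    have k5 := fun c c' b => (D_dv v l hvl i β z' z c (update c' v (some b))).2.2.2 (e2 c' b)
    have k6 := fun c c' => (D_dv v l hvl (i-1) β.flip z' z (update c v none) c').1 (e1 c)
    simp only [k1, k2, k3, k4, k5, k6, hid]
    have h2' : ∀ a b : A, a = b ↔ a + b = 0 := by
      intro a b
      constructor
      · intro h; rw [h]; exact h2 b
      · intro h
        have := h2 b
        calc a = a + (b + b) := by rw [this, add_zero]
          _ = (a + b) + b := by abel
          _ = b := by rw [h, zero_add]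
    rw [h2']
    have h3 : ∀ a : A, (2 : ℤ) • a = 0 := fun a => by rw [two_zsmul]; exact h2 a
    abel_nf
    simp only [h3, add_zero]

end Pool.Agent.H98.Cup
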