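import Pool.Agent.H98.Cup.Cell

/-!
Further properties of the Steenrod diagonals `D` on the cells of a cube:
range of the index, the top product, change of base cell, naturality.
-/

namespace Pool.Agent.H98.Cup

open Function

variable {V : Type*} [DecidableEq V]
variable {M A : Type*} [AddCommGroup M] [AddCommGroup A]

theorem D_neg (l : List V) : ∀ (i : ℤ) (β : M →+ M →+ A) (z z' : Cel V → M)
    (c c' : Cel V), i < 0 → D l i β z z' c c' = 0 := by
  induction l with
  | nil =>
    intro i β z z' c c' hi
    rw [D_nil, if_neg (by omega)]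
  | cons v l ih =>
    intro i β z z' c c' hi
    rw [D_cons, ih _ _ _ _ _ _ hi, ih _ _ _ _ _ _ hi, ih (i-1) _ _ _ _ _ (by omega)]
    simp

theorem D_big (l : List V) : ∀ (i : ℤ) (β : M →+ M →+ A) (z z' : Cel V → M)
    (c c' : Cel V), (l.length : ℤ) < i → D l i β z z' c c' = 0 := by
  induction l with
  | nil =>
    intro i β z z' c c' hi
    rw [D_nil, if_neg (by simp at hi; omega)]
  | cons v l ih =>
    intro i β z z' c c' hi
    rw [List.length_cons] at hi
    push_cast at hi
    rw [D_cons, ih i _ _ _ _ _ (by omega), ih i _ _ _ _ _ (by omega),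
      ih (i-1) _ _ _ _ _ (by omega)]
    simp

/-- the cell with all directions of a list made into edges -/
def open_ (l : List V) (c : Cel V) : Cel V := fun v => if v ∈ l then none else c v

theorem open_nil (c : Cel V) : open_ [] c = c := by
  funext v; simp [open_]

theorem open_cons (v : V) (l : List V) (c : Cel V) :
    open_ l (update c v none) = open_ (v :: l) c := by
  funext u
  unfold open_
  by_cases h : u ∈ l
  · simp [h]
  · by_cases h' : u = v
    · subst h'; simp
    · simp [h, h', update_of_ne h']

theorem D_top (l : List V) : ∀ (β : M →+ M →+ A) (z z' : Cel V → M)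
    (c c' : Cel V),
    D l (l.length : ℤ) β z z' c c' = β (z (open_ l c)) (z' (open_ l c')) := by
  induction l with
  | nil =>
    intro β z z' c c'
    simp [D_nil, open_nil]
  | cons v l ih =>
    intro β z z' c c'
    have hlen : (((v :: l).length : ℕ) : ℤ) - 1 = (l.length : ℤ) := by
      rw [List.length_cons]; push_cast; ring
    have hlt : (l.length : ℤ) < (((v :: l).length : ℕ) : ℤ) := by
      rw [List.length_cons]; push_cast; omega
    rw [D_cons, D_big l _ _ _ _ _ _ hlt, D_big l _ _ _ _ _ _ hlt, hlen, ih]
    rw [open_cons, open_cons, AddMonoidHom.flip_apply]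
    simp

theorem D_congr_update (v : V) (e : Option Bool) (l : List V) (hv : v ∉ l) :
    ∀ (i : ℤ) (β : M →+ M →+ A)
    (z z' y y' : Cel V → M) (c c' : Cel V)
    (_ : ∀ c, z (update c v e) = y c) (_ : ∀ c, z' (update c v e) = y' c),
    D l i β z z' (update c v e) (update c' v e) = D l i β y y' c c' := by
  induction l with
  | nil =>
    intro i β z z' y y' c c' h h'
    rw [D_nil, D_nil, h, h']
  | cons u l ih =>
    intro i β z z' y y' c c' h h'
    have huv : v ≠ u := fun h => hv (by simp [h])
    have hvl : v ∉ l := fun h => hv (by simp [h])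
    have hcomm : ∀ (c : Cel V) (a b : Option Bool),
        update (update c v b) u a = update (update c u a) v b := fun c a b =>
      update_comm huv _ _ _
    rw [D_cons, D_cons]
    simp only [hcomm]
    rw [ih hvl i β z z' y y' _ _ h h', ih hvl i β z z' y y' _ _ h h',
      ih hvl (i-1) β.flip z' z y' y _ _ h' h]

theorem D_map {M' A' : Type*} [AddCommGroup M'] [AddCommGroup A'] (φ : M →+ M') (ψ : A →+ A')
    (l : List V) : ∀ (i : ℤ) (β : M →+ M →+ A) (β' : M' →+ M' →+ A')
    (_ : ∀ m m', β' (φ m) (φ m') = ψ (β m m'))
    (z z' : Cel V → M) (c c' : Cel V),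
    D l i β' (fun c => φ (z c)) (fun c => φ (z' c)) c c' = ψ (D l i β z z' c c') := by
  induction l with
  | nil =>
    intro i β β' h z z' c c'
    rw [D_nil, D_nil]
    split_ifs
    · exact h _ _
    · simp
  | cons v l ih =>
    intro i β β' h z z' c c'
    rw [D_cons, D_cons, ih i β β' h, ih i β β' h,
      ih (i-1) β.flip β'.flip (fun m m' => h m' m), map_add, map_add]

end Pool.Agent.H98.Cup
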