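import Pool.Agent.H98.Cup.Cell2

/-!
Cup-i products on cube complexes with invariant coordinates.

`Cubes V X`: the vertices of the complex are the elements of `X`, the cubes are the pairs
`(x, s)`, `s` a clique of directions, up to moving `x` by `τ v`, `v ∈ s`; `crd x v` is the
coordinate of the vertex `x` in the direction `v`.
A cochain is a function `z : X → Finset V → M`, used on cliques only, with
`z (τ v x) s = z x s` for `v ∈ s` (`Inv`).
-/

namespace Pool.Agent.H98.Cup

open Function

/-- cube complexes with invariant coordinates -/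
structure Cubes (V X : Type*) where
  /-- the neighbour of a vertex in a direction -/
  τ : V → X → X
  /-- the coordinates of a vertex -/
  crd : X → V → Bool
  /-- adjacency of directions -/
  adj : V → V → Prop
  τ_τ : ∀ v x, τ v (τ v x) = x
  comm : ∀ u v x, adj u v → τ u (τ v x) = τ v (τ u x)
  crd_same : ∀ v x, crd (τ v x) v = !(crd x v)
  crd_other : ∀ u v x, u ≠ v → crd (τ v x) u = crd x u

namespace Cubes

variable {V X : Type*} [DecidableEq V] (Q : Cubes V X)
variable {M A : Type*} [AddCommGroup M] [AddCommGroup A]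

/-- cliques of directions -/
def Clique (s : Finset V) : Prop := ∀ u ∈ s, ∀ v ∈ s, u ≠ v → Q.adj u v

/-- the vertex of the edge of `x` in the direction `v` with coordinate `e` -/
def π (v : V) (e : Bool) (x : X) : X := if Q.crd x v = e then x else Q.τ v x

/-- invariant functions -/
def Inv (z : X → Finset V → M) : Prop :=
  ∀ s, Q.Clique s → ∀ v ∈ s, ∀ x, z (Q.τ v x) s = z x s

/-- the coboundary -/
def d (z : X → Finset V → M) (x : X) (s : Finset V) : M :=
  ∑ v ∈ s, (z x (s.erase v) + z (Q.τ v x) (s.erase v))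

theorem π_sum (f : X → M) (v : V) (x : X) :
    f (Q.π v false x) + f (Q.π v true x) = f x + f (Q.τ v x) := by
  unfold π
  cases h : Q.crd x v
  · simp
  · simp [add_comm]

theorem π_comm (u v : V) (huv : u ≠ v) (h : Q.adj u v) (a b : Bool) (x : X) :
    Q.π u a (Q.π v b x) = Q.π v b (Q.π u a x) := by
  have h1 := Q.crd_other u v x huv
  have h2 := Q.crd_other v u x huv.symm
  have h3 := Q.comm u v x h
  unfold π
  by_cases ha : Q.crd x u = a
  · by_cases hb : Q.crd x v = b
    · simp [ha, hb]
    · simp [ha, hb, h1]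
  · by_cases hb : Q.crd x v = b
    · simp [ha, hb, h2]
    · simp [ha, hb, h1, h2, h3]

theorem π_τ (v : V) (a : Bool) (x : X) : Q.π v a (Q.τ v x) = Q.π v a x := by
  unfold π
  rw [Q.crd_same, Q.τ_τ]
  cases Q.crd x v <;> cases a <;> simp

theorem π_τ_comm (u v : V) (huv : u ≠ v) (h : Q.adj u v) (a : Bool) (x : X) :
    Q.π u a (Q.τ v x) = Q.τ v (Q.π u a x) := by
  have h1 := Q.crd_other u v x huv
  have h3 := Q.comm u v x h
  unfold π
  rw [h1]
  split_ifs
  · rfl
  · exact h3

/-- the operation of one coordinate -/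
def op (v : V) : Option Bool → X → X
  | none, x => x
  | some e, x => Q.π v e x

/-- the vertex of the cube `(x, l)` given by a cell -/
def pt (l : List V) (x : X) (c : Cel V) : X :=
  l.foldr (fun v y => Q.op v (c v) y) x

theorem pt_nil (x : X) (c : Cel V) : Q.pt [] x c = x := rfl

theorem pt_cons (v : V) (l : List V) (x : X) (c : Cel V) :
    Q.pt (v :: l) x c = Q.op v (c v) (Q.pt l x c) := rfl

theorem op_comm (u v : V) (huv : u ≠ v) (h : Q.adj u v) (a b : Option Bool) (x : X) :
    Q.op u a (Q.op v b x) = Q.op v b (Q.op u a x) := by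
  cases a <;> cases b <;> simp [op, Q.π_comm u v huv h]

theorem pt_congr (l : List V) (x : X) (c c' : Cel V) (h : ∀ v ∈ l, c v = c' v) :
    Q.pt l x c = Q.pt l x c' := by
  induction l with
  | nil => rfl
  | cons u l ih =>
    rw [pt_cons, pt_cons, h u (by simp), ih (fun v hv => h v (by simp [hv]))]

theorem pt_op (l : List V) (v : V) (hv : v ∉ l) (h : ∀ u ∈ l, Q.adj u v)
    (a : Option Bool) (x : X) (c : Cel V) :
    Q.pt l (Q.op v a x) c = Q.op v a (Q.pt l x c) := by
  induction l with
  | nil => rfl
  | cons u l ih =>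
    have huv : u ≠ v := fun e => hv (by simp [e])
    have hvl : v ∉ l := fun e => hv (by simp [e])
    rw [pt_cons, pt_cons, ih hvl (fun w hw => h w (by simp [hw]))]
    exact Q.op_comm u v huv (h u (by simp)) _ _ _

theorem pt_τ (l : List V) (v : V) (hv : v ∉ l) (h : ∀ u ∈ l, Q.adj u v)
    (x : X) (c : Cel V) :
    Q.pt l (Q.τ v x) c = Q.τ v (Q.pt l x c) := by
  induction l with
  | nil => rfl
  | cons u l ih =>
    have huv : u ≠ v := fun e => hv (by simp [e])
    have hvl : v ∉ l := fun e => hv (by simp [e])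
    rw [pt_cons, pt_cons, ih hvl (fun w hw => h w (by simp [hw]))]
    cases c u
    · rfl
    · exact Q.π_τ_comm u v huv (h u (by simp)) _ _

/-- lists of directions spanning a cube -/
def LClique (l : List V) : Prop := ∀ u ∈ l, ∀ v ∈ l, u ≠ v → Q.adj u v

theorem pt_erase (l : List V) (hl : l.Nodup) (hc : Q.LClique l) (v : V) (hv : v ∈ l)
    (x : X) (c : Cel V) :
    Q.pt l x c = Q.op v (c v) (Q.pt (l.erase v) x c) := by
  induction l with
  | nil => simp at hv
  | cons u l ih =>
    by_cases huv : u = v
    · subst huv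
      rw [List.erase_cons_head, pt_cons]
    · have hvl : v ∈ l := by
        rcases List.mem_cons.1 hv with h | h
        · exact absurd h.symm huv
        · exact h
      have hc' : Q.LClique l := fun a ha b hb => hc a (by simp [ha]) b (by simp [hb])
      rw [List.erase_cons_tail (by simpa using huv), pt_cons, pt_cons,
        ih (List.nodup_cons.1 hl).2 hc' hvl]
      exact Q.op_comm u v huv (hc u (by simp) v (by simp [hvl]) huv) _ _ _

/-- the cochain of the cube `(x, l)` as a function on cells -/
def ζ (z : X → Finset V → M) (x : X) (l : List V) (c : Cel V) : M :=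
  z (Q.pt l x c) (l.toFinset.filter fun v => c v = none)

theorem pt_update (l : List V) (hl : l.Nodup) (hc : Q.LClique l) (v : V) (hv : v ∈ l)
    (x : X) (c : Cel V) (e : Bool) :
    Q.pt l x (update c v (some e)) = Q.pt (l.erase v) (Q.π v e x) c := by
  have hvl : v ∉ l.erase v := fun h => (List.Nodup.mem_erase_iff hl).1 h |>.1 rfl
  have hadj : ∀ u ∈ l.erase v, Q.adj u v := fun u hu => by
    have h := (List.Nodup.mem_erase_iff hl).1 hu
    exact hc u h.2 v hv h.1
  rw [Q.pt_erase l hl hc v hv, update_self]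
  have h1 : Q.pt (l.erase v) (Q.π v e x) c = Q.pt (l.erase v) (Q.op v (some e) x) c := rfl
  rw [h1, Q.pt_op _ v hvl hadj]
  congr 1
  apply Q.pt_congr
  intro u hu
  have h := (List.Nodup.mem_erase_iff hl).1 hu
  rw [update_of_ne h.1]

theorem pt_update' (l : List V) (hl : l.Nodup) (hc : Q.LClique l) (v : V) (hv : v ∈ l)
    (x : X) (c : Cel V) (hn : c v = none) (e : Bool) :
    Q.pt l x (update c v (some e)) = Q.π v e (Q.pt l x c) := by
  rw [Q.pt_erase l hl hc v hv, update_self, Q.pt_erase l hl hc v hv x c, hn]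
  show Q.π v e (Q.pt (l.erase v) x (update c v (some e))) = Q.π v e (Q.pt (l.erase v) x c)
  congr 1
  apply Q.pt_congr
  intro u hu
  have h := (List.Nodup.mem_erase_iff hl).1 hu
  rw [update_of_ne h.1]

theorem pt_none (l : List V) (x : X) : Q.pt l x (fun _ => none) = x := by
  induction l with
  | nil => rfl
  | cons u l ih => rw [pt_cons, ih]; rfl

theorem ζ_update (z : X → Finset V → M) (l : List V) (hl : l.Nodup) (hc : Q.LClique l)
    (v : V) (hv : v ∈ l) (x : X) (c : Cel V) (e : Bool) :
    Q.ζ z x l (update c v (some e)) = Q.ζ z (Q.π v e x) (l.erase v) c := by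
  unfold ζ
  rw [Q.pt_update l hl hc v hv]
  congr 1
  ext u
  simp only [Finset.mem_filter, List.mem_toFinset, List.Nodup.mem_erase_iff hl]
  constructor
  · rintro ⟨h1, h2⟩
    by_cases huv : u = v
    · subst huv; simp at h2
    · rw [update_of_ne huv] at h2
      exact ⟨⟨huv, h1⟩, h2⟩
  · rintro ⟨⟨h1, h2⟩, h3⟩
    rw [update_of_ne h1]
    exact ⟨h2, h3⟩

theorem ζ_update' (z : X → Finset V → M) (l : List V) (hl : l.Nodup) (hc : Q.LClique l)
    (v : V) (hv : v ∈ l) (x : X) (c : Cel V) (hn : c v = none) (e : Bool) :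
    Q.ζ z x l (update c v (some e)) =
      z (Q.π v e (Q.pt l x c)) ((l.toFinset.filter fun v => c v = none).erase v) := by
  unfold ζ
  rw [Q.pt_update' l hl hc v hv x c hn]
  congr 1
  ext u
  simp only [Finset.mem_filter, List.mem_toFinset, Finset.mem_erase]
  constructor
  · rintro ⟨h1, h2⟩
    by_cases huv : u = v
    · subst huv; simp at h2
    · rw [update_of_ne huv] at h2
      exact ⟨huv, h1, h2⟩
  · rintro ⟨h1, h2, h3⟩
    rw [update_of_ne h1]
    exact ⟨h2, h3⟩

theorem dl_apply (l : List V) (z : Cel V → M) (c : Cel V) :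
    dl l z c = (l.map fun v => dv v z c).sum := by
  induction l with
  | nil => rfl
  | cons v l ih => rw [dl_cons]; simp [ih]

theorem dl_ζ (z : X → Finset V → M) (l : List V) (hl : l.Nodup) (hc : Q.LClique l) (x : X) :
    dl l (Q.ζ z x l) = Q.ζ (Q.d z) x l := by
  funext c
  rw [dl_apply, ← List.sum_toFinset _ hl]
  have h1 : Q.ζ (Q.d z) x l c = ∑ v ∈ l.toFinset.filter (fun v => c v = none),
      (z (Q.pt l x c) ((l.toFinset.filter fun v => c v = none).erase v)
      + z (Q.τ v (Q.pt l x c)) ((l.toFinset.filter fun v => c v = none).erase v)) := rfl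
  rw [h1, Finset.sum_filter]
  apply Finset.sum_congr rfl
  intro v hv
  have hv' : v ∈ l := List.mem_toFinset.1 hv
  unfold dv
  by_cases hn : c v = none
  · rw [if_pos hn, if_pos hn, Q.ζ_update' z l hl hc v hv' x c hn,
      Q.ζ_update' z l hl hc v hv' x c hn]
    exact Q.π_sum (fun y => z y _) v (Q.pt l x c)
  · rw [if_neg hn, if_neg hn]

end Cubes

end Pool.Agent.H98.Cup
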